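import Mathlib

namespace Pool.Agent.Results.MP_5f6a82_al.SurjectiveTwist

/-- The left strong rank condition: for no positive `n` is there an injective homomorphism of
left modules `A ^ (n + 1) → A ^ n`. -/
def LSRC (A : Type*) [Ring A] : Prop :=
  ∀ n : ℕ, 0 < n → ¬ ∃ f : (Fin (n + 1) → A) →ₗ[A] (Fin n → A), Function.Injective f

/-- `A`, with the ring homomorphism `ι : R → A` and the element `x`, is the Ore extension
`R[x; σ, δ]`: every element of `A` is `∑ ι (r_i) x ^ i` for a unique finitely supported
family of coefficients, and `x r = σ(r) x + δ(r)`. -/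
structure IsOreExtension {R A : Type*} [Ring R] [Ring A] (σ : R →+* R) (δ : R → R)
    (ι : R →+* A) (x : A) : Prop where
  comm : ∀ r : R, x * ι r = ι (σ r) * x + ι (δ r)
  basis : Function.Bijective (fun f : ℕ →₀ R => f.sum fun i r => ι r * x ^ i)

/-- `δ` is a `σ`-derivation. -/
def IsSkewDerivation {R : Type*} [Ring R] (σ : R →+* R) (δ : R → R) : Prop :=
  (∀ r s, δ (r + s) = δ r + δ s) ∧ ∀ r s, δ (r * s) = δ r * s + σ r * δ s

section general

variable {R : Type*} [Ring R] (σ : R →+* R)

/-- The action of the powers of `σ`. -/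
@[reducible] def act : MulSemiringAction (Multiplicative ℕ) R where
  smul n r := σ^[Multiplicative.toAdd n] r
  one_smul r := rfl
  mul_smul m n r := by
    change σ^[Multiplicative.toAdd (m * n)] r = σ^[Multiplicative.toAdd m] (σ^[Multiplicative.toAdd n] r)
    rw [toAdd_mul, Function.iterate_add_apply]
  smul_zero n := by
    change σ^[Multiplicative.toAdd n] 0 = 0
    exact iterate_map_zero _ _
  smul_add n r s := iterate_map_add _ _ _ _
  smul_one n := iterate_map_one _ _
  smul_mul n r s := iterate_map_mul _ _ _ _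

/-- Coefficient extraction as an additive homomorphism. -/
noncomputable def cf (n : ℕ) : SkewPolynomial R →+ R where
  toFun p := SkewPolynomial.coeff p n
  map_zero' := rfl
  map_add' p q := by
    change SkewMonoidAlgebra.coeff (p + q) _ = _
    rw [SkewMonoidAlgebra.coeff_add]
    rfl

lemma cf_sum (f : ℕ →₀ R) (n : ℕ) :
    SkewPolynomial.coeff (∑ i ∈ f.support, SkewPolynomial.monomial i (f i)) n = f n := by
  change cf n (∑ i ∈ f.support, SkewPolynomial.monomial i (f i)) = f n
  rw [map_sum]
  have h : ∀ i, cf n (SkewPolynomial.monomial i (f i)) = if i = n then f i else 0 := fun i =>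
    SkewPolynomial.coeff_monomial
  simp only [h]
  by_cases hn : n ∈ f.support
  · simp [hn]
  · rw [Finset.sum_ite_eq' f.support n f, if_neg hn]
    exact (Finsupp.notMem_support_iff.mp hn).symm

open SkewPolynomial in
lemma isOre : @IsOreExtension R (SkewPolynomial R) _ (by letI := act σ; infer_instance) σ (fun _ => 0)
    (by letI := act σ; exact CRingHom) (X : SkewPolynomial R) := by
  let _ := act σ
  constructor
  · intro r
    change X * C r = C (σ r) * X + C 0
    rw [C_0, add_zero, ← monomial_zero_left, X_mul_monomial, ← monomial_zero_left, monomial_mul_X]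
    rfl
  · have key : ∀ f : ℕ →₀ R, (f.sum fun i r => (CRingHom : R →+* SkewPolynomial R) r * X ^ i) =
        ∑ i ∈ f.support, monomial i (f i) := by
      intro f
      refine Finset.sum_congr rfl fun i _ => ?_
      change C (f i) * X ^ i = _
      rw [C_mul_X_pow_eq_monomial]
    constructor
    · intro f g hfg
      have hfg' : ∑ i ∈ f.support, monomial i (f i) = ∑ i ∈ g.support, monomial i (g i) := by
        rw [← key, ← key]; exact hfg
      ext n
      rw [← cf_sum f n, hfg', cf_sum g n]
    · intro p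
      refine ⟨Finsupp.onFinset p.support p.coeff (fun n hn => mem_support_iff.mpr hn), ?_⟩
      refine (key _).trans ?_
      ext n
      rw [cf_sum]
      rfl

/-- The criterion: suppose the field `k` maps to `R`, with image fixed by `σ`, and some power of
`σ` maps each given element into the image of `k`. Then the skew polynomial ring has the left
strong rank condition. -/
lemma lsrc {k : Type*} [Field k] (e : k →+* R) (he : Function.Injective e)
    (hfix : ∀ c, σ (e c) = e c)
    (hnil : ∀ r : R, ∃ K0 : ℕ, ∀ K, K0 ≤ K → ∃ c : k, σ^[K] r = e c) :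
    @LSRC (SkewPolynomial R) (by letI := act σ; infer_instance) := by
  let _ := act σ
  intro n hn ⟨f, hf⟩
  have hcomm : ∀ c, Commute (((SkewPolynomial.CRingHom : R →+* SkewPolynomial R).comp e) c)
      SkewPolynomial.X := by
    intro c
    change SkewPolynomial.C (e c) * SkewPolynomial.X = SkewPolynomial.X * SkewPolynomial.C (e c)
    rw [← SkewPolynomial.monomial_zero_left, SkewPolynomial.X_mul_monomial,
      SkewPolynomial.monomial_mul_X]
    congr 1
    exact (hfix c).symm
  let Φ : Polynomial k →+* SkewPolynomial R :=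
    Polynomial.eval₂RingHom' ((SkewPolynomial.CRingHom : R →+* SkewPolynomial R).comp e)
      SkewPolynomial.X hcomm
  have hΦm : ∀ (i : ℕ) (c : k), Φ (Polynomial.monomial i c) = SkewPolynomial.monomial i (e c) := by
    intro i c
    change Polynomial.eval₂ _ _ _ = _
    rw [Polynomial.eval₂_monomial]
    change SkewPolynomial.C (e c) * SkewPolynomial.X ^ i = _
    rw [SkewPolynomial.C_mul_X_pow_eq_monomial]
  -- moving powers of `X` to the right
  have hmove : ∀ a : SkewPolynomial R, ∃ K0 : ℕ, ∀ K, K0 ≤ K →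
      ∃ p : Polynomial k, SkewPolynomial.X ^ K * a = Φ p * SkewPolynomial.X ^ K := by
    intro a
    induction a using SkewPolynomial.induction with
    | h0 => exact ⟨0, fun K _ => ⟨0, by simp⟩⟩
    | ha m r q _ _ ih =>
      obtain ⟨K1, h1⟩ := ih
      obtain ⟨K2, h2⟩ := hnil r
      refine ⟨max K1 K2, fun K hK => ?_⟩
      obtain ⟨p, hp⟩ := h1 K (le_of_max_le_left hK)
      obtain ⟨c, hc⟩ := h2 K (le_of_max_le_right hK)
      refine ⟨Polynomial.monomial m c + p, ?_⟩
      rw [mul_add, hp, map_add, add_mul, hΦm, SkewPolynomial.X_pow_mul_monomial,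
        SkewPolynomial.monomial_mul_X_pow]
      rw [show (SkewPolynomial.φ)^[K] r = e c from hc]
  choose K0 hK0 using hmove
  let E : Fin (n + 1) → (Fin (n + 1) → SkewPolynomial R) := fun i => Pi.single i 1
  let K : ℕ := ∑ i, ∑ j, K0 (f (E i) j)
  have hK : ∀ i j, K0 (f (E i) j) ≤ K := by
    intro i j
    calc K0 (f (E i) j) ≤ ∑ j, K0 (f (E i) j) :=
          Finset.single_le_sum (f := fun j => K0 (f (E i) j)) (fun _ _ => Nat.zero_le _)
            (Finset.mem_univ j)
      _ ≤ K := Finset.single_le_sum (f := fun i => ∑ j, K0 (f (E i) j)) (fun _ _ => Nat.zero_le _)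
            (Finset.mem_univ i)
  choose P hP using fun i j => hK0 (f (E i) j) K (hK i j)
  -- a nonzero left kernel vector over `k[X]`
  obtain ⟨w, hw0, hw⟩ : ∃ w : Fin (n + 1) → Polynomial k, w ≠ 0 ∧ ∀ j, ∑ i, w i * P i j = 0 := by
    let g : (Fin (n + 1) → Polynomial k) →ₗ[Polynomial k] (Fin n → Polynomial k) :=
      Matrix.vecMulLinear (Matrix.of P)
    have hg : ¬ Function.Injective g := by
      intro h
      have := card_le_of_injective (Polynomial k) g h
      rw [Fintype.card_fin, Fintype.card_fin] at this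
      omega
    obtain ⟨w, hw, hw0⟩ : ∃ w, g w = 0 ∧ w ≠ 0 := by
      by_contra hcon
      push Not at hcon
      exact hg ((injective_iff_map_eq_zero g).mpr hcon)
    refine ⟨w, hw0, fun j => ?_⟩
    have := congrFun hw j
    simpa [g, Matrix.vecMul, dotProduct] using this
  -- lift it
  let v : Fin (n + 1) → SkewPolynomial R := fun i => Φ (w i) * SkewPolynomial.X ^ K
  have hv : v = ∑ i, v i • E i := by
    ext i
    simp [E, Pi.single_apply]
  have hfv : f v = 0 := by
    rw [hv, map_sum]
    funext j
    rw [Finset.sum_apply]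
    have : ∀ i, (f (v i • E i)) j = Φ (w i * P i j) * SkewPolynomial.X ^ K := by
      intro i
      rw [map_smul, Pi.smul_apply, smul_eq_mul]
      change Φ (w i) * SkewPolynomial.X ^ K * f (E i) j = _
      rw [mul_assoc, hP i j, map_mul, mul_assoc]
    rw [Finset.sum_congr rfl (fun i _ => this i), ← Finset.sum_mul, ← map_sum, hw j, map_zero,
      zero_mul]
    rfl
  have hv0 : v = 0 := hf (by rw [hfv, map_zero])
  apply hw0
  funext i
  have h1 : Φ (w i) * SkewPolynomial.X ^ K = 0 := congrFun hv0 i
  ext m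
  have h2 : ∀ p : Polynomial k, SkewPolynomial.coeff (Φ p * SkewPolynomial.X ^ K) (m + K) =
      e (p.coeff m) := by
    intro p
    change cf (m + K) (Φ p * SkewPolynomial.X ^ K) = _
    induction p using Polynomial.induction_on' with
    | add p q hp hq => rw [map_add, add_mul, map_add, hp, hq, Polynomial.coeff_add, map_add]
    | monomial l c =>
      have h5 : cf (m + K) (SkewPolynomial.monomial (l + K) (e c)) =
          if l + K = m + K then e c else 0 := SkewPolynomial.coeff_monomial
      rw [hΦm, SkewPolynomial.monomial_mul_X_pow, h5, Polynomial.coeff_monomial]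
      by_cases h : l = m
      · subst h; simp
      · have : l + K ≠ m + K := by omega
        simp [h, this]
  have h3 := h2 (w i)
  rw [h1] at h3
  have h4 : e ((w i).coeff m) = 0 := h3.symm
  rw [map_eq_zero_iff e he] at h4
  rw [h4]
  rfl

end general

section example_

variable (k : Type) [Field k]

/-- The endomorphism `a₀ ↦ 0`, `a_{i+1} ↦ a_i` of the free algebra on `a₀, a₁, …`. -/
noncomputable def sh : FreeAlgebra k ℕ →ₐ[k] FreeAlgebra k ℕ :=
  FreeAlgebra.lift k (fun i => Nat.casesOn i 0 (fun j => FreeAlgebra.ι k j))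

lemma sh_zero : sh k (FreeAlgebra.ι k 0) = 0 := by simp [sh]

lemma sh_succ (j : ℕ) : sh k (FreeAlgebra.ι k (j + 1)) = FreeAlgebra.ι k j := by simp [sh]

lemma sh_surj : Function.Surjective (sh k) := by
  intro r
  induction r using FreeAlgebra.induction with
  | grade0 c => exact ⟨algebraMap k _ c, by simp⟩
  | grade1 j => exact ⟨_, sh_succ k j⟩
  | mul a b ha hb =>
    obtain ⟨a', rfl⟩ := ha
    obtain ⟨b', rfl⟩ := hb
    exact ⟨a' * b', map_mul _ _ _⟩
  | add a b ha hb =>
    obtain ⟨a', rfl⟩ := ha
    obtain ⟨b', rfl⟩ := hb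
    exact ⟨a' + b', map_add _ _ _⟩

lemma sh_nil (r : FreeAlgebra k ℕ) :
    ∃ K0 : ℕ, ∀ K, K0 ≤ K → ∃ c : k, (sh k)^[K] r = algebraMap k _ c := by
  induction r using FreeAlgebra.induction with
  | grade0 c => exact ⟨0, fun K _ => ⟨c, Function.iterate_fixed (AlgHom.commutes _ _) K⟩⟩
  | grade1 j =>
    refine ⟨j + 1, fun K hK => ⟨0, ?_⟩⟩
    rw [map_zero]
    induction j generalizing K with
    | zero =>
      obtain ⟨K, rfl⟩ : ∃ l, K = l + 1 := ⟨K - 1, by omega⟩
      rw [Function.iterate_succ_apply, sh_zero, iterate_map_zero]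
    | succ j ih =>
      obtain ⟨K, rfl⟩ : ∃ l, K = l + 1 := ⟨K - 1, by omega⟩
      rw [Function.iterate_succ_apply, sh_succ]
      exact ih K (by omega)
  | mul a b ha hb =>
    obtain ⟨K1, h1⟩ := ha
    obtain ⟨K2, h2⟩ := hb
    refine ⟨max K1 K2, fun K hK => ?_⟩
    obtain ⟨c, hc⟩ := h1 K (le_of_max_le_left hK)
    obtain ⟨d, hd⟩ := h2 K (le_of_max_le_right hK)
    exact ⟨c * d, by rw [iterate_map_mul, hc, hd, map_mul]⟩
  | add a b ha hb =>
    obtain ⟨K1, h1⟩ := ha
    obtain ⟨K2, h2⟩ := hb
    refine ⟨max K1 K2, fun K hK => ?_⟩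
    obtain ⟨c, hc⟩ := h1 K (le_of_max_le_left hK)
    obtain ⟨d, hd⟩ := h2 K (le_of_max_le_right hK)
    exact ⟨c + d, by rw [iterate_map_add, hc, hd, map_add]⟩

lemma coeff_mul_of (r : MonoidAlgebra k (FreeMonoid ℕ)) (w : FreeMonoid ℕ) (i j : ℕ) :
    (r * MonoidAlgebra.single (FreeMonoid.of i) (1 : k)).coeff (w * FreeMonoid.of j) =
      if i = j then r.coeff w else 0 := by
  by_cases h : i = j
  · subst h
    rw [MonoidAlgebra.coeff_mul_single_eq_coeff_mul (m₂ := w), if_pos rfl, mul_one]
    intro m' _
    exact ⟨fun h => mul_right_cancel h, fun h => by rw [h]⟩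
  · rw [if_neg h]
    apply MonoidAlgebra.coeff_mul_single_of_forall_mul_ne
    intro d hd
    apply h
    have h1 := congrArg FreeMonoid.toList hd
    simp only [FreeMonoid.toList_mul, FreeMonoid.toList_of] at h1
    have h2 := congrArg List.getLast? h1
    simpa using h2

lemma right_indep (r s : FreeAlgebra k ℕ)
    (h : r * FreeAlgebra.ι k 0 + s * FreeAlgebra.ι k 1 = 0) : r = 0 ∧ s = 0 := by
  let e := FreeAlgebra.equivMonoidAlgebraFreeMonoid (R := k) (X := ℕ)
  have he : ∀ i : ℕ, e (FreeAlgebra.ι k i) = MonoidAlgebra.single (FreeMonoid.of i) 1 := by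
    intro i
    simp [e, FreeAlgebra.equivMonoidAlgebraFreeMonoid]
  have h1 := congrArg e h
  rw [map_add, map_mul, map_mul, he, he, map_zero] at h1
  constructor
  · apply e.injective
    rw [map_zero]
    ext w
    have := congrArg (fun z => MonoidAlgebra.coeff z (w * FreeMonoid.of 0)) h1
    simpa [coeff_mul_of] using this
  · apply e.injective
    rw [map_zero]
    ext w
    have := congrArg (fun z => MonoidAlgebra.coeff z (w * FreeMonoid.of 1)) h1
    simpa [coeff_mul_of] using this

/-- The free algebra of countable rank fails the left strong rank condition. -/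
lemma not_lsrc : ¬ LSRC (FreeAlgebra k ℕ) := by
  intro h
  apply h 1 one_pos
  let f : (Fin (1 + 1) → FreeAlgebra k ℕ) →ₗ[FreeAlgebra k ℕ] (Fin 1 → FreeAlgebra k ℕ) :=
    { toFun := fun v _ => v 0 * FreeAlgebra.ι k 0 + v 1 * FreeAlgebra.ι k 1
      map_add' := by intro v w; funext _; simp [add_mul]; abel
      map_smul' := by intro c v; funext _; simp [mul_add, mul_assoc] }
  refine ⟨f, (injective_iff_map_eq_zero f).mpr ?_⟩
  intro v hv
  obtain ⟨h0, h1⟩ := right_indep k (v 0) (v 1) (congrFun hv 0)
  funext i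
  fin_cases i
  · exact h0
  · exact h1

end example_

/-- For every field `k` there are a `k`-algebra `R`, a surjective ring endomorphism `σ` of `R` and
an Ore extension `A = R[x; σ]` (with `δ = 0`) such that `A` satisfies the left strong rank
condition while `R` does not. -/
theorem result (k : Type) [Field k] :
    ∃ (R : Type) (_ : Ring R) (_ : Algebra k R) (σ : R →+* R) (A : Type) (_ : Ring A) (ι : R →+* A)
      (x : A), Function.Surjective σ ∧ IsSkewDerivation σ (fun _ => 0) ∧
      IsOreExtension σ (fun _ => 0) ι x ∧ LSRC A ∧ ¬ LSRC R := by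
  let _ := act (sh k : FreeAlgebra k ℕ →+* FreeAlgebra k ℕ)
  refine ⟨FreeAlgebra k ℕ, inferInstance, inferInstance, (sh k : FreeAlgebra k ℕ →+* FreeAlgebra k ℕ),
    SkewPolynomial (FreeAlgebra k ℕ), inferInstance, SkewPolynomial.CRingHom, SkewPolynomial.X,
    sh_surj k, ⟨by simp, by simp⟩, isOre _, ?_, not_lsrc k⟩
  exact lsrc _ (algebraMap k (FreeAlgebra k ℕ)) (FreeAlgebra.algebraMap_leftInverse.injective)
    (fun c => AlgHom.commutes _ _) (sh_nil k)

end Pool.Agent.Results.MP_5f6a82_al.SurjectiveTwist
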